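import Pool.Agent.W997.CF.Stm

/-!
# The overhead is small (S_NUM)
-/

set_option autoImplicit false

namespace Pool.Agent.W382.CF.NUM

open Pool.Agent.W997.CF
open Pool.Agent.W997.TS (Var)

theorem main : S_NUM := by
  intro d η hd hη
  have hlog2 : 0 < Real.log 2 := Real.log_pos one_lt_two
  set g : ℝ := η * (2 * Real.log 2) with hg
  have hgpos : 0 < g := by positivity
  set a : ℝ := (2 : ℝ) ^ d * d with ha
  set b : ℝ := (2 : ℝ) ^ d * 4 + 1 with hb
  have ha0 : 0 ≤ a := by positivity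
  have hb0 : 0 ≤ b := by positivity
  refine ⟨max 1 ⌈2 * (a + b) / g ^ 2⌉₊, fun n hn L hL => ?_⟩
  have hn1 : 1 ≤ n := (le_max_left _ _).trans hn
  have hn1R : (1 : ℝ) ≤ n := by exact_mod_cast hn1
  have hn2 : 2 * (a + b) / g ^ 2 ≤ n :=
    (Nat.le_ceil _).trans (by exact_mod_cast (le_max_right _ _).trans hn)
  -- the bound for `L`
  have hLle : L ≤ 1 + d * n := by
    have h1 : 2 ^ L ≤ 2 ^ (1 + d * n) := by
      calc 2 ^ L ≤ 2 * d ^ n := hL
        _ ≤ 2 * (2 ^ d) ^ n := Nat.mul_le_mul_left _ (Nat.pow_le_pow_left Nat.lt_two_pow_self.le _)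
        _ = 2 ^ (1 + d * n) := by rw [pow_add, pow_one, pow_mul]
    exact (Nat.pow_le_pow_iff_right (by norm_num)).1 h1
  have hLR : (L : ℝ) ≤ 1 + d * n := by exact_mod_cast hLle
  have hlhs : (2 : ℝ) ^ d * ((L : ℝ) + 3) + 1 ≤ a * n + b := by
    have h1 : (2 : ℝ) ^ d * ((L : ℝ) + 3) ≤ (2 : ℝ) ^ d * (1 + d * n + 3) :=
      mul_le_mul_of_nonneg_left (by linarith) (by positivity)
    rw [ha, hb]
    linarith
  -- the bound for the number of variables
  have hcard : (2 ^ n) ^ 2 ≤ Fintype.card (Var d (d ^ n) n) := by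
    have h1 : Fintype.card (Fin d → Fin (d ^ n)) ≤ Fintype.card (Var d (d ^ n) n) := by
      refine Fintype.card_le_of_injective
        (fun a => (Sum.inl (⟨[], by simpa using (by omega : 0 < n)⟩, a) : Var d (d ^ n) n)) ?_
      intro a a' h
      have h2 := Sum.inl_injective h
      exact congrArg Prod.snd h2
    rw [Fintype.card_fun, Fintype.card_fin, Fintype.card_fin] at h1
    refine le_trans ?_ h1
    calc (2 ^ n) ^ 2 ≤ (d ^ n) ^ 2 := Nat.pow_le_pow_left (Nat.pow_le_pow_left hd _) _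
      _ ≤ (d ^ n) ^ d := Nat.pow_le_pow_right (Nat.one_le_pow _ _ (by omega)) hd
  set N : ℕ := Fintype.card (Var d (d ^ n) n) with hN
  have hNR : ((2 : ℝ) ^ n) ^ 2 ≤ N := by exact_mod_cast hcard
  have hNpos : (0 : ℝ) < N := lt_of_lt_of_le (by positivity) hNR
  have hlogN : n * (2 * Real.log 2) ≤ Real.log N := by
    have h1 := Real.log_le_log (by positivity) hNR
    rw [Real.log_pow, Real.log_pow] at h1
    push_cast at h1
    linarith
  have hrhs : Real.exp (n * g) ≤ (N : ℝ) ^ η := by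
    rw [Real.rpow_def_of_pos hNpos]
    apply Real.exp_le_exp.2
    have h1 := mul_le_mul_of_nonneg_right hlogN hη.le
    rw [hg]
    linarith
  have hquad : a * n + b ≤ Real.exp (n * g) := by
    have h1 := Real.quadratic_le_exp_of_nonneg (x := n * g) (by positivity)
    have h2 : 2 * (a + b) ≤ n * g ^ 2 := by
      rwa [div_le_iff₀ (by positivity)] at hn2
    have h3 : 2 * (a + b) * n ≤ n * g ^ 2 * n := mul_le_mul_of_nonneg_right h2 (by linarith)
    have h4 : b ≤ b * n := le_mul_of_one_le_right hb0 hn1R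
    have h5 : 0 ≤ n * g := by positivity
    nlinarith
  exact (hlhs.trans hquad).trans hrhs

end Pool.Agent.W382.CF.NUM
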